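import Pool.Agent.R667.PE.Main

set_option autoImplicit false

open MeasureTheory Filter Topology

namespace Pool.Agent.Results.MP_ac3f41_pr.BallLimitsCritical

open Pool.Agent.R667.PE

universe u v w

/-- Full positive answer to Q1: every limit along balls of a Cayley graph with infinitely many ends
has critical probability one almost surely. -/
theorem result (Γ : Type u) [Group Γ] (S : Finset Γ) (hS : GenSet S) (hE : ManyEnds (Cay S))
    (Ω : Type v) [MeasurableSpace Ω] (P : Measure Ω) (V : Ω → Type w)
    (H : ∀ ω, SimpleGraph (V ω)) (ρ : ∀ ω, V ω) (hH : IsBallLimit S P V H ρ) :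
    ∀ᵐ ω ∂P, pc (H ω) = 1 :=
  main Γ S hS hE Ω P V H ρ hH

end Pool.Agent.Results.MP_ac3f41_pr.BallLimitsCritical
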